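import Pool.Agent.U847.XF
import Pool.Agent.N625.PT.X8

/-!
# Representations of almost all multiples of random integers as a sum of an `a`-prime and a prime, for all `a ≤ A` at once:
the digits form a random field on an arbitrary graph of positions

The even numbers `N = h M (c + κ v)`, where `M` is the product of the primes `≤ y` and the digits of the random integer `v`
form a Markov random field on a graph of positions of bounded degree: `∑ v ∈ range (b ^ k), (if P v then 0 else p v)` is the
probability that the random integer `v < b ^ k` with the distribution `p` does not have the property `P`.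

From Mathlib: `Nat.nth Nat.Prime`: the sequence of the primes; `primorial y`: the product of the primes `≤ y`;
`Finset.Icc 1 x`: the integers from `1` to `x`.

Method: exponential sums over the integers whose digits form a Markov random field: averages over separated neighbourhoods
in the graph of positions (starting files, `Pool.Agent.N213.GF`). New here: the decay is exponential in the number of the
digits where the frequency is not extremal, for all the fractions with a denominator free of small primes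
(`Pool.Agent.U847.XC`), it gives the sieve with error terms smaller than all powers of `k` (`Pool.Agent.U847.XD`), the second
moment of the number of the `a`-primes which survive the sieve (`Pool.Agent.U847.XE`) and the number of the representations
(`Pool.Agent.U847.XF`). The proofs of these three steps are those of the starting files `Pool.Agent.N625.PT.X2` - `X7`
(integers with exchangeable blocks of digits), with the class of distributions replaced.

Examples of random fields, proved in `Pool.Agent.N213.GF.E` and `Pool.Agent.N213.GF.F`: the uniform distribution on the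
solutions of local constraints with flexible digits on a graph of positions with degrees at most `Δ`, with `η = 1 / b ^ (Δ + 1)`
(`unif_field`); in particular the integers whose nonzero digits form an independent set of the graph (`indep_local`), and,
for `b ≥ Δ + 2`, the integers whose digits are a proper colouring of the graph (`colour_local`).
-/

set_option autoImplicit false

namespace Pool.Agent.Results.MP_e3f158_nt.RandomFieldMultiples

open Finset

/-- The digit of `v` at the position `i` in base `b` (the position `0` is the least significant one). -/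
def dig (b v i : ℕ) : ℕ := v / b ^ i % b

/-- The integer which has the digits of `v` at the positions in `S` and the digits of `w` at the other positions below `k`. -/
def splice (b k : ℕ) (S : Finset ℕ) (v w : ℕ) : ℕ := ∑ i ∈ range k, (if i ∈ S then dig b v i else dig b w i) * b ^ i

/-- `v` and `w` have the same digits outside the set `S` of positions. -/
def Off (b : ℕ) (S : Finset ℕ) (v w : ℕ) : Prop := ∀ i, i ∉ S → dig b v i = dig b w i

open Classical in
/-- The closed neighbourhood of the position `i` in the graph `A` on the positions `0, …, k - 1`. -/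
noncomputable def nb (k : ℕ) (A : ℕ → ℕ → Prop) (i : ℕ) : Finset ℕ := (range k).filter fun j => j = i ∨ A i j

open Classical in
/-- The total weight of the integers below `b ^ k` which have the same digits as `v` outside `S`. -/
noncomputable def mass (b k : ℕ) (p : ℕ → ℝ) (S : Finset ℕ) (v : ℕ) : ℝ :=
  ∑ w ∈ (range (b ^ k)).filter (fun w => Off b S w v), p w

/-- The digits of a random integer `v < b ^ k` (with the probabilities `p v`) form a Markov random field on a graph `A` of
positions with degrees at most `Δ` (the Markov property: for every set `S` of positions and all `v`, `w` which have the same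
digits at the positions outside `S` adjacent to `S`, the product `p v * p w` does not change if `v` and `w` exchange their
digits in `S`), and each digit is flexible: for every `v` with `p v ≠ 0` and every position `i`, there are `x` and `y` which
have the same digits as `v` outside the closed neighbourhood of `i`, which differ from each other exactly at the position
`i`, and whose conditional probabilities, given the digits outside this neighbourhood, are at least `η`. -/
structure Field (b k Δ : ℕ) (η : ℝ) (A : ℕ → ℕ → Prop) (p : ℕ → ℝ) : Prop where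
  symm : ∀ i j, A i j → A j i
  degree : ∀ i < k, (nb k A i).card ≤ Δ + 1
  nonneg : ∀ v, 0 ≤ p v
  sum : ∑ v ∈ range (b ^ k), p v = 1
  markov : ∀ S : Finset ℕ, ∀ v < b ^ k, ∀ w < b ^ k, (∀ i ∈ S, ∀ j < k, j ∉ S → A i j → dig b v j = dig b w j) →
    p v * p w = p (splice b k S v w) * p (splice b k S w v)
  flexible : ∀ v < b ^ k, p v ≠ 0 → ∀ i < k, ∃ x < b ^ k, ∃ y < b ^ k, Off b (nb k A i) x v ∧ Off b {i} y x ∧
    dig b y i ≠ dig b x i ∧ η * mass b k p (nb k A i) v ≤ p x ∧ η * mass b k p (nb k A i) v ≤ p y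

/-- The `i`-th `a`-prime: the `(a + 1)`-fold iterate of `k ↦ k`-th prime, applied to `i`. -/
noncomputable def ip (a i : ℕ) : ℕ := Nat.iterate (fun k : ℕ => Nat.nth Nat.Prime (k - 1)) (a + 1) i

open Classical in
/-- The `a`-primes `≤ x`. -/
noncomputable def IPs (a x : ℕ) : Finset ℕ := (Icc 1 x).filter (fun u => ∃ i : ℕ, 0 < i ∧ ip a i = u)

/-- the product of `1 - 1/q` over the primes `q ≤ y` -/
noncomputable def V (y : ℕ) : ℝ := ∏ q ∈ (Icc 1 y).filter Nat.Prime, (1 - 1 / (q : ℝ))

/-- the multiple of the product of the primes `≤ y` given by the integers `h` and `c + κ v` -/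
def Nv (y h : ℕ) (c κ : ℤ) (v : ℕ) : ℤ := ((primorial y * h : ℕ) : ℤ) * (c + κ * v)

/-- the `u ∈ S` such that `n - u` is prime -/
def Rep (S : Finset ℕ) (n : ℤ) : Finset ℕ := S.filter (fun u : ℕ => (n - u).toNat.Prime)

lemma field_conv {b k Δ : ℕ} {η : ℝ} {A : ℕ → ℕ → Prop} {p : ℕ → ℝ} (h : Field b k Δ η A p) :
    Pool.Agent.N213.GF.Field b k Δ η A p :=
  ⟨h.symm, h.degree, h.nonneg, h.sum, h.markov, h.flexible⟩

open Classical in
/-- the law for a class of distributions -/
theorem main (b q₀ : ℕ) (hb : 2 ≤ b) (Cl : ℕ → (ℕ → ℝ) → Prop) (hC : Pool.Agent.U847.XP.SCls b q₀ Cl) : ∀ κ : ℤ, κ ≠ 0 →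
    ∀ (B J A C : ℕ) (ε : ℝ), 0 < ε → ε ≤ 1 → ∃ K₀ : ℕ, ∀ K₁ : ℕ, ∃ k₀ : ℕ, ∀ k : ℕ, k₀ ≤ k →
    ∀ p : ℕ → ℝ, Cl k p → ∀ y : ℕ, K₀ * Real.log k ≤ y → y ≤ K₁ * Real.log k →
    ∀ c : ℤ, |c| ≤ B * (b : ℤ) ^ k → ∀ H : ℕ, H ≤ k ^ J → ∀ X : ℕ, b ^ k ≤ X * k ^ C → X ≤ b ^ k * k ^ C →
      ∑ v ∈ range (b ^ k), (if (((Icc 1 H).filter (fun h => ¬ ((X : ℤ) < Nv y h c κ v → ∀ a ≤ A,
        (1 - ε) * ((IPs a X).card / (V y * (k * Real.log b))) ≤ ((Rep (IPs a X) (Nv y h c κ v)).card : ℝ)))).card : ℝ) ≤
          ε * H then 0 else p v) ≤ ε := by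
  intro κ hκ B J A C ε hε hε1
  obtain ⟨ε', hε'⟩ : ∃ ε' : ℝ, ε' = ε ^ 2 / (A + 1) := ⟨_, rfl⟩
  have hA : (0 : ℝ) < A + 1 := by positivity
  have hA1 : (1 : ℝ) ≤ A + 1 := by
    have : (0 : ℝ) ≤ A := Nat.cast_nonneg A
    linarith
  have he0 : 0 < ε' := by rw [hε']; positivity
  have hε2 : ε ^ 2 ≤ ε := by nlinarith
  have hee : ε' ≤ ε := by
    rw [hε']
    exact (div_le_self (by positivity) hA1).trans hε2
  have h := fun a : ℕ => Pool.Agent.U847.XP.dense_sum b q₀ hb Cl hC κ hκ B J (2 * (a + 1) + 1) C ε' he0 (hee.trans hε1)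
  choose K₀ hK₀ using h
  refine ⟨(range (A + 1)).sup K₀, fun K₁ => ?_⟩
  have h := fun a : ℕ => hK₀ a K₁
  choose x₀ hx₀ using h
  have h := fun a : ℕ => Pool.Agent.N625.PT.ip_dense b C a hb
  choose x₁ hx₁ using h
  refine ⟨max (max ((range (A + 1)).sup x₀) ((range (A + 1)).sup x₁)) 1, fun k hk p hp y hy1 hy2 c hc H hHJ X hX1 hX2 => ?_⟩
  have b1 : (range (A + 1)).sup x₀ ≤ k := by omega
  have b2 : (range (A + 1)).sup x₁ ≤ k := by omega
  have b3 : 1 ≤ k := by omega
  have hkr : (1 : ℝ) ≤ k := by exact_mod_cast b3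
  have hlk : 0 ≤ Real.log k := Real.log_nonneg hkr
  have hb1 : (1 : ℝ) < b := by exact_mod_cast (by omega : 1 < b)
  have hlogb : 0 < Real.log b := Real.log_pos hb1
  have hVy : 0 < V y := Pool.Agent.H373R2.T7.Vz_pos y
  obtain ⟨Bd, hBd⟩ : ∃ Bd : ℕ → ℕ → ℕ → Prop, ∀ a h v, Bd a h v ↔ ((X : ℤ) < Nv y h c κ v ∧
    ((Rep (IPs a X) (Nv y h c κ v)).card : ℝ) < (1 - ε) * ((IPs a X).card / (V y * (k * Real.log b)))) := ⟨_, fun _ _ _ => Iff.rfl⟩
  have key : ∀ a ∈ range (A + 1), ∀ h ∈ Icc 1 H, ∑ v ∈ range (b ^ k), (if Bd a h v then p v else 0) ≤ ε' := by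
    intro a ha h hh
    rw [mem_Icc] at hh
    have h1 := hx₀ a k ((Finset.le_sup ha).trans b1) p hp y (by
      refine le_trans ?_ hy1
      apply mul_le_mul_of_nonneg_right _ hlk
      exact_mod_cast Finset.le_sup ha) hy2 c hc h hh.1 (hh.2.trans hHJ) X hX1 hX2 (IPs a X)
      (Pool.Agent.N625.PT.IPs_sub a X) (Pool.Agent.N625.PT.IPs_prime a X) (hx₁ a k ((Finset.le_sup ha).trans b2) X hX1 hX2)
    refine le_trans ?_ h1
    apply sum_le_sum
    intro v _
    by_cases hv : Bd a h v
    · rw [if_pos hv, if_pos]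
      rw [hBd] at hv
      refine ⟨hv.1, lt_of_lt_of_le (lt_of_eq_of_lt ?_ hv.2) ?_⟩
      · congr!
      · apply mul_le_mul_of_nonneg_right (by linarith)
        exact div_nonneg (Nat.cast_nonneg _) (mul_nonneg hVy.le (by positivity))
    · rw [if_neg hv]
      split_ifs
      · exact hC.nonneg _ _ hp v
      · exact le_rfl
  -- Markov
  obtain ⟨cnt, hcnt⟩ : ∃ cnt : ℕ → ℝ, ∀ v, cnt v = (((Icc 1 H).filter (fun h => ¬ ((X : ℤ) < Nv y h c κ v → ∀ a ≤ A,
        (1 - ε) * ((IPs a X).card / (V y * (k * Real.log b))) ≤ ((Rep (IPs a X) (Nv y h c κ v)).card : ℝ)))).card : ℝ) :=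
    ⟨_, fun _ => rfl⟩
  have hcle : ∀ v, cnt v ≤ ∑ h ∈ Icc 1 H, ∑ a ∈ range (A + 1), (if Bd a h v then (1 : ℝ) else 0) := by
    intro v
    rw [hcnt, card_eq_sum_ones, Nat.cast_sum, sum_filter]
    apply sum_le_sum
    intro h _
    have hnn : ∀ a ∈ range (A + 1), (0 : ℝ) ≤ (if Bd a h v then (1 : ℝ) else 0) := by
      intro a _
      split_ifs <;> norm_num
    by_cases hq : (X : ℤ) < Nv y h c κ v → ∀ a ≤ A,
        (1 - ε) * ((IPs a X).card / (V y * (k * Real.log b))) ≤ ((Rep (IPs a X) (Nv y h c κ v)).card : ℝ)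
    · rw [if_neg (not_not.2 hq)]
      exact sum_nonneg hnn
    · rw [if_pos hq]
      push Not at hq
      obtain ⟨g1, a, ha, g2⟩ := hq
      have h1 : (if Bd a h v then (1 : ℝ) else 0) = 1 := by
        rw [if_pos]
        rw [hBd]
        exact ⟨g1, g2⟩
      have := single_le_sum hnn (mem_range.2 (Nat.lt_succ_of_le ha))
      rw [h1] at this
      simpa using this
  have hexp : ∑ v ∈ range (b ^ k), p v * cnt v ≤ H * ε ^ 2 := by
    calc ∑ v ∈ range (b ^ k), p v * cnt v ≤ ∑ v ∈ range (b ^ k), ∑ h ∈ Icc 1 H, ∑ a ∈ range (A + 1), (if Bd a h v then p v else 0) := by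
          apply sum_le_sum
          intro v _
          refine (mul_le_mul_of_nonneg_left (hcle v) (hC.nonneg _ _ hp v)).trans (le_of_eq ?_)
          rw [mul_sum]
          apply sum_congr rfl
          intro h _
          rw [mul_sum]
          apply sum_congr rfl
          intro a _
          split_ifs <;> simp
      _ = ∑ h ∈ Icc 1 H, ∑ a ∈ range (A + 1), ∑ v ∈ range (b ^ k), (if Bd a h v then p v else 0) := by
          rw [sum_comm]
          apply sum_congr rfl
          intro h _
          rw [sum_comm]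
      _ ≤ ∑ h ∈ Icc 1 H, ∑ a ∈ range (A + 1), ε' := by
          apply sum_le_sum
          intro h hh
          exact sum_le_sum fun a ha => key a ha h hh
      _ = H * ε ^ 2 := by
          rw [sum_const, sum_const, card_range, Nat.card_Icc, Nat.add_sub_cancel, hε']
          simp only [nsmul_eq_mul]
          push_cast
          field_simp
  rcases Nat.eq_zero_or_pos H with hH | hH
  · have : ∑ v ∈ range (b ^ k), (if cnt v ≤ ε * H then 0 else p v) = 0 := by
      apply sum_eq_zero
      intro v _
      rw [if_pos]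
      rw [hcnt, hH]
      simp
    simp_rw [hcnt] at this
    rw [this]
    exact hε.le
  · have hH0 : (0 : ℝ) < H := by exact_mod_cast hH
    have h1 : (∑ v ∈ range (b ^ k), (if cnt v ≤ ε * H then 0 else p v)) * (ε * H) ≤ ε * (ε * H) := by
      refine le_trans ?_ (hexp.trans (le_of_eq (by ring)))
      rw [sum_mul]
      apply sum_le_sum
      intro v _
      have hc0 : 0 ≤ cnt v := by rw [hcnt]; exact Nat.cast_nonneg _
      split_ifs with hv
      · rw [zero_mul]
        exact mul_nonneg (hC.nonneg _ _ hp v) hc0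
      · push Not at hv
        exact mul_le_mul_of_nonneg_left hv.le (hC.nonneg _ _ hp v)
    have h2 := le_of_mul_le_mul_right h1 (by positivity)
    simp_rw [hcnt] at h2
    exact h2

open Classical in
/-- Let `b ≥ 2`, `Δ`, `η > 0`, `κ ≠ 0`, `B`, `J`, `A`, `C` and `0 < ε ≤ 1` be fixed. There is a `K₀` such that for all `K₁`
and all large `k`: let `v < b ^ k` be a random integer whose digits form a Markov random field with flexible digits on an
arbitrary graph `G` of positions with degrees at most `Δ`, let `y` be between `K₀ log k` and `K₁ log k`, `M` the product of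
the primes `≤ y`, and `X` an integer with `b ^ k ≤ X k ^ C`, `X ≤ b ^ k k ^ C`. Then for all `|c| ≤ B b ^ k` and all
`H ≤ k ^ J`, with a probability of at least `1 - ε` all but at most `ε H` of the multiples `N = h M (c + κ v)`,
`1 ≤ h ≤ H`, have the following property: if `N > X`, then `N` has for EVERY `a ≤ A` at least
`(1 - ε) #U / (V y log b ^ k)` representations `N = u + q`, `u ∈ U` and `q` a prime, where `U` is the set of all `a`-primes
`u ≤ X`. -/
theorem result (b : ℕ) (hb : 2 ≤ b) (Δ : ℕ) (η : ℝ) (hη : 0 < η) (κ : ℤ) (hκ : κ ≠ 0) (B J A C : ℕ) (ε : ℝ) (hε : 0 < ε)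
    (hε1 : ε ≤ 1) : ∃ K₀ : ℕ, ∀ K₁ : ℕ, ∃ k₀ : ℕ, ∀ k : ℕ, k₀ ≤ k →
    ∀ (G : ℕ → ℕ → Prop) (p : ℕ → ℝ), Field b k Δ η G p → ∀ y : ℕ, K₀ * Real.log k ≤ y → y ≤ K₁ * Real.log k →
    ∀ c : ℤ, |c| ≤ B * (b : ℤ) ^ k → ∀ H : ℕ, H ≤ k ^ J → ∀ X : ℕ, b ^ k ≤ X * k ^ C → X ≤ b ^ k * k ^ C →
      ∑ v ∈ range (b ^ k), (if (((Icc 1 H).filter (fun h => ¬ ((X : ℤ) < Nv y h c κ v → ∀ a ≤ A,
        (1 - ε) * ((IPs a X).card / (V y * (k * Real.log b))) ≤ ((Rep (IPs a X) (Nv y h c κ v)).card : ℝ)))).card : ℝ) ≤
          ε * H then 0 else p v) ≤ ε := by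
  obtain ⟨K₀, h0⟩ := main b _ hb _ (Pool.Agent.U847.XP.gf_scls b Δ η hb hη) κ hκ B J A C ε hε hε1
  refine ⟨K₀, fun K₁ => ?_⟩
  obtain ⟨k₀, h0⟩ := h0 K₁
  exact ⟨k₀, fun k hk G p hp => h0 k hk p ⟨G, field_conv hp⟩⟩

end Pool.Agent.Results.MP_e3f158_nt.RandomFieldMultiples
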