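import Pool.Agent.U331.SU.Sum
import Pool.Agent.Results.MP_e3f158_nt.RandomFieldMultiples

/-!
# Representations of almost all multiples of sums of independent random integers (words of codes at arbitrary positions, for example)
as a sum of an `a`-prime and a prime, for all `a ≤ A` at once

The even numbers are `N = h M (c + κ v)`, where `M` is the product of the primes `≤ y` and the `v` are sums of
independent random integers with a joint lattice condition (`Sums`); no single digit of them needs to be variable. The sum over `v` in the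
theorem is the probability that `v` does not have the property.

From Mathlib: `Nat.nth Nat.Prime`: the sequence of the primes; `primorial y`: the product of the primes `≤ y`;
`Finset.Icc 1 x`: the integers from `1` to `x`.

Method. New here: the exponential sums over such random integers. If the product of a frequency with `R b ^ j` is far from
the integers, then so is its product with one of the differences `x_t - y_t`, and the characteristic function of the
summand number `n_t` loses a constant factor at this frequency. So the exponential sum decays exponentially in the number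
of the positions at which the frequency, multiplied with `R`, is far from the integers (`Pool.Agent.U331.SU`). The passage
from such a decay to the sieve, to the second moment and to the number of the primes in random translates is helper847's
(`Pool.Agent.U847.XP.SCls`, generic in the class of distributions, after the starting files `Pool.Agent.N625.PT.X2` - `X12`),
and the representations are treated in his `Pool.Agent.Results.MP_e3f158_nt.RandomFieldMultiples.main`.
-/

set_option autoImplicit false

namespace Pool.Agent.Results.MP_e3f158_nt.IndependentSumMultiples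

open Finset

/-- `p` is the distribution of a sum of `N` independent random integers: the summand number `n` takes the values `x ∈ S n` with
the probabilities `π n x`, and the values of the sum are `< b ^ k`. For all but at most `s` of the positions `j < k` the number
`R b ^ j` is a combination `∑ t, c_t (x_t - y_t)`, `t < s`, with integers `|c_t| ≤ s`, where `x_t` and `y_t` are values which one
of the summands, the one with the number `n_t`, takes with a probability of at least `η`; and every summand is used in this
way for at most `s` positions. (Examples: independent random digits, each from an arbitrary set with at least two elements;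
palindromes with independent pairs of opposite digits, `R = b ^ 2 - 1`; the integers whose digits in arbitrary blocks of
boundedly many positions are independent random words of arbitrary codes which are not contained in a hyperplane, no single
digit of which needs to be variable; sums of several integers of this kind.) -/
structure Sums (b s R : ℕ) (η : ℝ) (k : ℕ) (p : ℕ → ℝ) : Prop where
  ex : ∃ (N : ℕ) (S : Fin N → Finset ℕ) (π : Fin N → ℕ → ℝ),
    (∀ n, (∀ x, 0 ≤ π n x) ∧ ∑ x ∈ S n, π n x = 1) ∧
    (∀ x ∈ Fintype.piFinset S, ∑ n, x n < b ^ k) ∧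
    (∀ v, p v = ∑ x ∈ (Fintype.piFinset S).filter (fun x => ∑ n, x n = v), ∏ n, π n (x n)) ∧
    ∃ (J : Finset ℕ) (n : ℕ → Fin s → Fin N) (c : ℕ → Fin s → ℤ) (x y : ℕ → Fin s → ℕ),
      (J ⊆ range k ∧ k ≤ J.card + s) ∧
      (∀ j ∈ J, ((R * b ^ j : ℕ) : ℤ) = ∑ t, c j t * ((x j t : ℤ) - y j t)) ∧
      (∀ j ∈ J, ∀ t, |c j t| ≤ s ∧ (x j t ∈ S (n j t) ∧ y j t ∈ S (n j t)) ∧
        η ≤ π (n j t) (x j t) ∧ η ≤ π (n j t) (y j t)) ∧
      ∀ m : Fin N, (J.filter fun j => ∃ t, n j t = m).card ≤ s

lemma conv {b s R : ℕ} {η : ℝ} {k : ℕ} {p : ℕ → ℝ} (h : Sums b s R η k p) : Pool.Agent.U331.SU.Sums b s R η k p := ⟨h.ex⟩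

/-- The `i`-th `a`-prime, `i ≥ 1`: the function `i ↦` the `i`-th prime, iterated `a + 1` times. -/
noncomputable def ip (a i : ℕ) : ℕ := Nat.iterate (fun k : ℕ => Nat.nth Nat.Prime (k - 1)) (a + 1) i

open Classical in
/-- The `a`-primes `≤ x`. -/
noncomputable def IPs (a x : ℕ) : Finset ℕ := (Icc 1 x).filter (fun u => ∃ i : ℕ, 0 < i ∧ ip a i = u)

/-- the product of `1 - 1/q` over the primes `q ≤ y` -/
noncomputable def V (y : ℕ) : ℝ := ∏ q ∈ (Icc 1 y).filter Nat.Prime, (1 - 1 / (q : ℝ))

/-- the multiple of the product of the primes `≤ y` given by the integers `h` and `c + κ v` -/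
def Nv (y h : ℕ) (c κ : ℤ) (v : ℕ) : ℤ := ((primorial y * h : ℕ) : ℤ) * (c + κ * v)

/-- the `u ∈ S` such that `n - u` is prime -/
def Rep (S : Finset ℕ) (n : ℤ) : Finset ℕ := S.filter (fun u : ℕ => (n - u).toNat.Prime)

open Classical in
/-- Let `b ≥ 2`, `s`, `R ≥ 1`, `η > 0`, `κ ≠ 0`, `B`, `J`, `A`, `C` and `0 < ε ≤ 1` be fixed. There is a `K₀` such that for all `K₁` and all
large `k`: let `μ` be a distribution on the words of `k` digits in base `b` with `Sums b s R η k μ`, let `y` be between
`K₀ log k` and `K₁ log k`, `M` the product of the primes `≤ y`, and `X` an integer with `b ^ k ≤ X k ^ C`,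
`X ≤ b ^ k k ^ C`. Then for all `|c| ≤ B b ^ k` and all `H ≤ k ^ J`, the random integer `v` with the distribution `μ` has with
a probability of at least `1 - ε` the property: all but at most `ε H` of the multiples `N = h M (c + κ v)`, `1 ≤ h ≤ H`,
satisfy: if `N > X`, then `N` has for EVERY `a ≤ A` at least `(1 - ε) #U / (V y log b ^ k)` representations `N = u + q`,
`u ∈ U` and `q` a prime, where `U` is the set of all `a`-primes `u ≤ X`. -/
theorem result (b : ℕ) (hb : 2 ≤ b) (s R : ℕ) (hR : 1 ≤ R) (η : ℝ) (hη0 : 0 < η) (κ : ℤ) (hκ : κ ≠ 0)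
    (B J A C : ℕ) (ε : ℝ) (hε : 0 < ε) (hε1 : ε ≤ 1) : ∃ K₀ : ℕ, ∀ K₁ : ℕ, ∃ k₀ : ℕ, ∀ k : ℕ, k₀ ≤ k →
    ∀ μ : ℕ → ℝ, Sums b s R η k μ → ∀ y : ℕ, K₀ * Real.log k ≤ y → y ≤ K₁ * Real.log k →
    ∀ c : ℤ, |c| ≤ B * (b : ℤ) ^ k → ∀ H : ℕ, H ≤ k ^ J → ∀ X : ℕ, b ^ k ≤ X * k ^ C → X ≤ b ^ k * k ^ C →
      ∑ v ∈ range (b ^ k), (if (((Icc 1 H).filter (fun h => ¬ ((X : ℤ) < Nv y h c κ v → ∀ a ≤ A,
        (1 - ε) * ((IPs a X).card / (V y * (k * Real.log b))) ≤ ((Rep (IPs a X) (Nv y h c κ v)).card : ℝ)))).card : ℝ) ≤
          ε * H then 0 else μ v) ≤ ε := by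
  obtain ⟨K₀, h0⟩ := Pool.Agent.Results.MP_e3f158_nt.RandomFieldMultiples.main b _ hb (Pool.Agent.U331.SU.Sums b s R η)
    (Pool.Agent.U331.SU.sums_scls b s R hb hR η hη0) κ hκ B J A C ε hε hε1
  refine ⟨K₀, fun K₁ => ?_⟩
  obtain ⟨k₀, h0⟩ := h0 K₁
  exact ⟨k₀, fun k hk μ hμ => h0 k hk μ (conv hμ)⟩

end Pool.Agent.Results.MP_e3f158_nt.IndependentSumMultiples
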