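import Pool.Agent.U710.XP.T
import Pool.Agent.N625.PT.X8

/-!
# Representations of all types at once, for almost all multiples of the integers near the values of functions which grow
faster than any power

The even numbers `N = h M u`, where `M` is the product of the primes `≤ z`, `z` of the order of magnitude of the logarithm
of `log N`, and `u` runs over all the integers near the values `⌊exp (α (log m) ^ γ + β)⌋`, `1 < γ < 3 / 2`.

Method (`Pool.Agent.U710.LE`, new): exponential sums over the values with Vinogradov's mean value theorem for a degree which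
tends to infinity. They have power savings in `log` at ALL frequencies which are not close to integers, and quasi-exponential
savings at the rational numbers with small denominators. The passage to the numbers of representations is from
`Pool.Agent.U847.X*` (helper847) and the starting files `Pool.Agent.N625.PT.X*`, with a weaker condition at the rational
numbers (`Pool.Agent.U710.XP`).
-/

set_option autoImplicit false

open Finset Filter

namespace Pool.Agent.Results.MP_e3f158_nt.SubexponentialMultiples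

/-- The sequence: `S α β γ m = ⌊exp (α (log m) ^ γ + β)⌋`. -/
noncomputable def S (α β γ : ℝ) (m : ℕ) : ℕ := ⌊Real.exp (α * Real.log m ^ γ + β)⌋₊

/-- The `i`-th `a`-prime: the `(a + 1)`-fold iterate of `k ↦ k`-th prime, applied to `i`. -/
noncomputable def ip (a i : ℕ) : ℕ := Nat.iterate (fun k : ℕ => Nat.nth Nat.Prime (k - 1)) (a + 1) i

open Classical in
/-- The `a`-primes `≤ x`. -/
noncomputable def IPs (a x : ℕ) : Finset ℕ := (Icc 1 x).filter (fun u => ∃ i : ℕ, 0 < i ∧ ip a i = u)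

/-- the product of `1 - 1/q` over the primes `q ≤ z` -/
noncomputable def V (z : ℕ) : ℝ := ∏ q ∈ (Icc 1 z).filter Nat.Prime, (1 - 1 / (q : ℝ))

/-- the `s ∈ P` such that `n - s` is prime -/
def Rep (P : Finset ℕ) (n : ℤ) : Finset ℕ := P.filter (fun s : ℕ => (n - s).toNat.Prime)

/-- for ALL the integers `u` with `|u - t| ≤ R` and ALL the types `a ≤ T`, the number `h M u`, if it is larger than `X`, has
at least `(1 - ε) #U / (V(z) L)` representations as the sum of an element of the set `U` of the `a`-primes `≤ X` and a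
prime -/
def AllTypes (T R X z : ℕ) (ε L : ℝ) (t : ℤ) (h : ℕ) : Prop :=
  ∀ u : ℤ, |u - t| ≤ R → (X : ℤ) < ((primorial z * h : ℕ) : ℤ) * u → ∀ a ≤ T,
    (1 - ε) * ((IPs a X).card / (V z * L)) ≤ ((Rep (IPs a X) (((primorial z * h : ℕ) : ℤ) * u)).card : ℝ)

open Classical in
/-- Let `S(m) = ⌊exp (α (log m) ^ γ + β)⌋`, `α > 0`, `1 < γ < 3/2` (it grows faster than any power of `m`, and has only `N ^ o(1)`
members up to `N`). Let `κ ≠ 0`, `A`, `B`, `J`, `C`, `R`, `T` be integers, `0 < ε ≤ 1`. There is `K₀` such that for all `K₁`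
the following holds for all large `y`; let `L = log S(y)`. Let `y / (log y) ^ A ≤ w ≤ y / log y`, let `z` be between
`K₀ log L` and `K₁ log L`, `M` the product of the primes `≤ z`, `|c| ≤ B S(y)`, `H ≤ L ^ J`, `S(y) ≤ X L ^ C`,
`X ≤ S(y) L ^ C`. All but at most `ε w` of the integers `m` in `(y - w, y]` are such that all the multipliers `1 ≤ h ≤ H`,
with at most `ε H` exceptions, have the property: for ALL the integers `u` with `|u - (c + κ S(m))| ≤ R` and ALL the types
`a ≤ T` the number `N = h M u`, if it is larger than `X`, has at least `(1 - ε) #U / (V(z) L)` representations `N = s + q`,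
`q` a prime, `s` in the set `U` of all the `a`-primes `≤ X`. -/
theorem result (α β γ : ℝ) (hα : 0 < α) (hγ1 : 1 < γ) (hγ2 : γ < 3 / 2) (κ : ℤ) (hκ : κ ≠ 0) (A B J C R T : ℕ) (ε : ℝ)
    (hε : 0 < ε) (hε1 : ε ≤ 1) : ∃ K₀ : ℕ, ∀ K₁ : ℕ, ∀ᶠ y : ℕ in atTop, ∀ w : ℕ, (y : ℝ) / Real.log y ^ A ≤ w →
    (w : ℝ) ≤ y / Real.log y → ∀ z : ℕ, K₀ * Real.log (Real.log (S α β γ y)) ≤ z → z ≤ K₁ * Real.log (Real.log (S α β γ y)) →
    ∀ c : ℤ, |c| ≤ B * (S α β γ y : ℕ) → ∀ H : ℕ, (H : ℝ) ≤ Real.log (S α β γ y) ^ J →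
    ∀ X : ℕ, (S α β γ y : ℝ) ≤ X * Real.log (S α β γ y) ^ C → (X : ℝ) ≤ S α β γ y * Real.log (S α β γ y) ^ C →
    (((Ioc (y - w) y).filter (fun m : ℕ => ¬ (((Icc 1 H).filter (fun h : ℕ =>
      ¬ AllTypes T R X z ε (Real.log (S α β γ y)) (c + κ * (S α β γ m : ℕ)) h)).card : ℝ) ≤ ε * H)).card : ℝ) ≤ ε * w := by
  obtain ⟨ε', hε'⟩ : ∃ ε' : ℝ, ε' = ε ^ 2 / (T + 1) := ⟨_, rfl⟩
  have hT : (0 : ℝ) < T + 1 := by positivity
  have hT1 : (1 : ℝ) ≤ T + 1 := by
    have : (0 : ℝ) ≤ T := Nat.cast_nonneg T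
    linarith
  have he0 : 0 < ε' := by rw [hε']; positivity
  have hε2 : ε ^ 2 ≤ ε := by nlinarith
  have hee : ε' ≤ ε := by
    rw [hε']
    exact (div_le_self (by positivity) hT1).trans hε2
  have hall := fun a : ℕ => Pool.Agent.U710.XP.sum_near α β γ hα hγ1 hγ2 κ hκ A B J C R (2 * (a + 1) + 1) ε' he0 (hee.trans hε1)
  choose K₀ hK₀ using hall
  refine ⟨(range (T + 1)).sup K₀, fun K₁ => ?_⟩
  have hall := fun a : ℕ => hK₀ a K₁
  choose y₀ hy₀ using hall
  have hall := fun a : ℕ => Pool.Agent.N625.PT.ip_dense 2 (C + 1) a le_rfl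
  choose k₁ h1 using hall
  obtain ⟨N₀, hN₀⟩ := Pool.Agent.U710.XP.scales J C ε hε
  obtain ⟨ζ, σ, hζ, hζ1, hσ, hdist⟩ := Pool.Agent.U710.XP.ef_dist α β γ hα hγ1 hγ2 A
  obtain ⟨y₁, hy₁⟩ := hdist ((range (T + 1)).sup k₁ + N₀ + 2)
  filter_upwards [eventually_ge_atTop ((range (T + 1)).sup y₀ + y₁)] with y hy w hw1 hw2 z hz1 hz2 c hc H hHJ X hX1 hX2
  obtain ⟨c1, c2, c3, c4, c5, c6, c7⟩ := hy₁ y w (by omega) hw1 hw2
  obtain ⟨N, hN⟩ : ∃ N, N = S α β γ y := ⟨_, rfl⟩
  have hN' : ⌊Pool.Agent.U710.LE.ef α β γ y⌋₊ = N := by rw [hN]; rfl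
  rw [hN'] at c3 c4
  have hNN : N₀ ≤ N := by
    have h1 : Pool.Agent.U710.LE.dg N ≤ N := by
      unfold Pool.Agent.U710.LE.dg
      have := Nat.log_lt_self 2 (show N ≠ 0 by omega)
      omega
    omega
  obtain ⟨s1, s2, s3, s4, s5, s6, s7, s8, s9⟩ := hN₀ N hNN
  rw [← hN] at hz1 hz2 hc hHJ hX1 hX2 ⊢
  have hw0 : (0 : ℝ) < w := by exact_mod_cast c1
  have hLL : 0 ≤ Real.log (Real.log N) := Real.log_nonneg s2
  have hV : 0 < V z := Pool.Agent.H373R2.T7.Vz_pos z
  -- one type and one multiplier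
  obtain ⟨Bd, hBd⟩ : ∃ Bd : ℕ → ℕ → ℕ → Prop, ∀ a h m, Bd a h m ↔ ¬ ∀ u : ℤ, |u - (c + κ * (S α β γ m : ℕ))| ≤ R →
      (X : ℤ) < ((primorial z * h : ℕ) : ℤ) * u →
      (1 - ε') * ((IPs a X).card / (V z * Real.log N)) ≤
        ((Rep (IPs a X) (((primorial z * h : ℕ) : ℤ) * u)).card : ℝ) := ⟨_, fun _ _ _ => Iff.rfl⟩
  have key : ∀ a ∈ range (T + 1), ∀ h ∈ Icc 1 H, (((Ioc (y - w) y).filter (fun m : ℕ => Bd a h m)).card : ℝ) ≤ ε' * w := by
    intro a ha h hh
    rw [mem_Icc] at hh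
    have g1 : y₀ a ≤ y := by
      have := Finset.le_sup (f := y₀) ha
      omega
    have g2 : k₁ a ≤ Pool.Agent.U710.LE.dg N := by
      have := Finset.le_sup (f := k₁) ha
      omega
    have g3 : (K₀ a : ℝ) * Real.log (Real.log N) ≤ z := by
      refine le_trans ?_ hz1
      apply mul_le_mul_of_nonneg_right _ hLL
      exact_mod_cast Finset.le_sup (f := K₀) ha
    have g4 : (h : ℝ) ≤ Real.log N ^ J := le_trans (by exact_mod_cast hh.2) hHJ
    rw [hN] at g3 g4 hz2 hc hX1 hX2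
    have h2 := hy₀ a y w g1 hw1 hw2 z g3 hz2 c hc h hh.1 g4 X hX1 hX2 (IPs a X)
      (Pool.Agent.N625.PT.IPs_sub a X) (Pool.Agent.N625.PT.IPs_prime a X) (by
        rw [hN']
        exact h1 a (Pool.Agent.U710.LE.dg N) g2 X (s8 X (by rw [hN]; exact hX1)) (s9 X (by rw [hN]; exact hX2)))
    refine le_trans (le_of_eq ?_) h2
    simp only [hBd, hN]
    congr!
  -- Markov
  obtain ⟨cnt, hcnt⟩ : ∃ cnt : ℕ → ℝ, ∀ m, cnt m = (((Icc 1 H).filter (fun h : ℕ =>
      ¬ AllTypes T R X z ε (Real.log N) (c + κ * (S α β γ m : ℕ)) h)).card : ℝ) := ⟨_, fun _ => rfl⟩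
  have hcle : ∀ m, cnt m ≤ ∑ h ∈ Icc 1 H, ∑ a ∈ range (T + 1), (if Bd a h m then (1 : ℝ) else 0) := by
    intro m
    rw [hcnt, card_eq_sum_ones, Nat.cast_sum, sum_filter]
    apply sum_le_sum
    intro h _
    have hnn : ∀ a ∈ range (T + 1), (0 : ℝ) ≤ (if Bd a h m then (1 : ℝ) else 0) := by
      intro a _
      split_ifs <;> norm_num
    by_cases hq : AllTypes T R X z ε (Real.log N) (c + κ * (S α β γ m : ℕ)) h
    · rw [if_neg (not_not.2 hq)]
      exact sum_nonneg hnn
    · rw [if_pos hq]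
      unfold AllTypes at hq
      push Not at hq
      obtain ⟨u, g1, g2, a, ha, g3⟩ := hq
      have h1 : (if Bd a h m then (1 : ℝ) else 0) = 1 := by
        rw [if_pos]
        rw [hBd]
        push Not
        refine ⟨u, g1, g2, lt_of_lt_of_le g3 ?_⟩
        apply mul_le_mul_of_nonneg_right (by linarith)
        have : 0 < Real.log (N : ℝ) := by linarith
        positivity
      have := single_le_sum hnn (mem_range.2 (Nat.lt_succ_of_le ha))
      rw [h1] at this
      simpa using this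
  have hcnt0 : ∀ m, 0 ≤ cnt m := fun m => by rw [hcnt]; exact Nat.cast_nonneg _
  have hexp : ∑ m ∈ Ioc (y - w) y, cnt m ≤ H * ε ^ 2 * w := by
    calc ∑ m ∈ Ioc (y - w) y, cnt m ≤ ∑ m ∈ Ioc (y - w) y, ∑ h ∈ Icc 1 H, ∑ a ∈ range (T + 1), (if Bd a h m then (1 : ℝ) else 0) :=
          sum_le_sum fun m _ => hcle m
      _ = ∑ h ∈ Icc 1 H, ∑ a ∈ range (T + 1), ∑ m ∈ Ioc (y - w) y, (if Bd a h m then (1 : ℝ) else 0) := by
          rw [sum_comm]
          apply sum_congr rfl
          intro h _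
          rw [sum_comm]
      _ = ∑ h ∈ Icc 1 H, ∑ a ∈ range (T + 1), (((Ioc (y - w) y).filter (fun m : ℕ => Bd a h m)).card : ℝ) := by
          refine sum_congr rfl fun h _ => sum_congr rfl fun a _ => ?_
          rw [sum_boole]
      _ ≤ ∑ h ∈ Icc 1 H, ∑ a ∈ range (T + 1), ε' * w := by
          apply sum_le_sum
          intro h hh
          exact sum_le_sum fun a ha => key a ha h hh
      _ = H * ε ^ 2 * w := by
          rw [sum_const, sum_const, card_range, Nat.card_Icc, Nat.add_sub_cancel, hε']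
          simp only [nsmul_eq_mul]
          push_cast
          field_simp
  simp_rw [← hcnt]
  rcases Nat.eq_zero_or_pos H with hH0 | hH0
  · refine le_trans (le_of_eq ?_) (mul_nonneg hε.le hw0.le)
    rw [Nat.cast_eq_zero, card_eq_zero, filter_eq_empty_iff]
    intro m _
    rw [not_not, hcnt, hH0]
    simp
  · have hHr : (0 : ℝ) < H := by exact_mod_cast hH0
    have h6 : (((Ioc (y - w) y).filter (fun m : ℕ => ¬ cnt m ≤ ε * H)).card : ℝ) * (ε * H) ≤ (ε * w) * (ε * H) := by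
      calc (((Ioc (y - w) y).filter (fun m : ℕ => ¬ cnt m ≤ ε * H)).card : ℝ) * (ε * H) =
          ∑ _m ∈ (Ioc (y - w) y).filter (fun m : ℕ => ¬ cnt m ≤ ε * H), ε * H := by
            rw [sum_const, nsmul_eq_mul]
        _ ≤ ∑ m ∈ (Ioc (y - w) y).filter (fun m : ℕ => ¬ cnt m ≤ ε * H), cnt m := by
            apply sum_le_sum
            intro m hm
            exact (not_le.1 (mem_filter.1 hm).2).le
        _ ≤ ∑ m ∈ Ioc (y - w) y, cnt m := sum_le_sum_of_subset_of_nonneg (filter_subset _ _) fun m _ _ => hcnt0 m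
        _ ≤ H * ε ^ 2 * w := hexp
        _ = _ := by ring
    exact le_of_mul_le_mul_right h6 (by positivity)

end Pool.Agent.Results.MP_e3f158_nt.SubexponentialMultiples
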